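import Pool.Agent.helper83.FI4B.Spec

set_option autoImplicit false

namespace Pool.Agent.FI4B

open Pool.Agent.helper58.DC Pool.Agent.DI Pool.Agent.GR Pool.Agent.OB Pool.Agent.DR Pool.Agent.FI Pool.Agent.FI3 Pool.Agent.FI4

lemma BCN_sign {k : ℤ} (hk : k ≠ 0) : k.sign * k = |k| ∧ k.sign ^ 2 = 1 := by
  rcases lt_or_gt_of_ne hk with h | h
  · rw [Int.sign_eq_neg_one_of_neg h, abs_of_neg h]
    exact ⟨by ring, by norm_num⟩
  · rw [Int.sign_eq_one_of_pos h, abs_of_pos h]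
    exact ⟨by ring, by norm_num⟩

lemma BCN_sq {P s T : ℤ} (hP : 1 ≤ P) (hs1 : P - 1 ≤ s) (hs2 : 2 * s ≤ (P - 1) * (P - 1)) (hd : P ^ 2 ∣ T - s) :
    (P - 1) ^ 2 ≤ T ^ 2 := by
  obtain ⟨k, hk⟩ := hd
  have hT : T = s + P ^ 2 * k := by linarith
  rcases le_or_gt 0 k with h | h
  · have h1 : P - 1 ≤ T := by
      rw [hT]
      have : 0 ≤ P ^ 2 * k := mul_nonneg (sq_nonneg _) h
      linarith
    nlinarith
  · have h1 : T ≤ -(P - 1) := by
      rw [hT]
      have h2 : P ^ 2 * k ≤ P ^ 2 * (-1) := mul_le_mul_of_nonneg_left (by omega) (sq_nonneg _)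
      nlinarith
    nlinarith

theorem BCN : BCN_stmt := by
  classical
  intro p hp D _ _ hD R S hS hR n hn X Y F κ hF hQ
  by_contra hcon
  have hcon' : p - 1 ≤ Y.card := by omega
  have : Fintype D := Fintype.ofFinite D
  obtain ⟨Y', hY', hYc⟩ := Finset.exists_subset_card_eq hcon'
  have hp1 : 1 ≤ p := hp.one_lt.le
  set P : ℤ := (p : ℤ) with hP
  have hP1 : 1 ≤ P := by rw [hP]; exact_mod_cast hp1
  have hYcz : ((Y'.card : ℕ) : ℤ) = P - 1 := by rw [hYc]; push_cast [Nat.cast_sub hp1]; rfl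
  set a : X → ℤ := fun x => if x ∈ Y' then (κ x).sign else 0 with ha
  set s : ℤ := ∑ x ∈ Y', |κ x| with hs
  have hs1 : P - 1 ≤ s := by
    rw [← hYcz, hs]
    have h1 : ∀ x ∈ Y', (1 : ℤ) ≤ |κ x| := fun x hx => Int.one_le_abs (hF x (hY' hx)).1
    calc ((Y'.card : ℕ) : ℤ) = ∑ x ∈ Y', (1 : ℤ) := by simp
      _ ≤ _ := Finset.sum_le_sum h1
  have hs2 : 2 * s ≤ (P - 1) * (P - 1) := by
    rw [hs, Finset.mul_sum]
    have h1 : ∀ x ∈ Y', 2 * |κ x| ≤ P - 1 := fun x hx => by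
      have := (hF x (hY' hx)).2.1
      omega
    calc ∑ x ∈ Y', 2 * |κ x| ≤ ∑ x ∈ Y', (P - 1) := Finset.sum_le_sum h1
      _ = (P - 1) * (P - 1) := by rw [Finset.sum_const, nsmul_eq_mul, hYcz]
  have hsum : ∀ g : X → ℤ, ∑ x ∈ Y, (if x ∈ Y' then g x else 0) = ∑ x ∈ Y', g x := by
    intro g
    rw [Finset.sum_ite_mem, Finset.inter_eq_right.2 hY']
  have hT : ∀ u, ∑ x ∈ Y, a x * F x u = ∑ x ∈ Y', (κ x).sign * F x u := by
    intro u
    rw [← hsum]
    refine Finset.sum_congr rfl fun x _ => ?_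
    rw [ha]
    simp only
    split_ifs
    · rfl
    · rw [zero_mul]
  have hdvd : ∀ u, (∀ H ∈ S, u ∉ H) → P ^ 2 ∣ (∑ x ∈ Y, a x * F x u) - s := by
    intro u hu
    rw [hT u, hs, ← Finset.sum_sub_distrib]
    refine Finset.dvd_sum fun x hx => ?_
    have h1 := hF x (hY' hx)
    rw [← (BCN_sign h1.1).1, ← mul_sub]
    exact Dvd.dvd.mul_left (h1.2.2 u hu) _
  set D' : Finset D := Finset.univ.filter (fun u => ∀ H ∈ S, u ∉ H) with hD'
  have hRf : R.Finite := Set.toFinite R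
  have hsub : D' ⊆ hRf.toFinset := by
    intro u hu
    rw [hD', Finset.mem_filter] at hu
    rw [Set.Finite.mem_toFinset]
    by_contra h
    obtain ⟨H, hH, hu2⟩ := hR u h
    exact hu.2 H hH hu2
  have hq := hQ a
  rw [finsum_mem_eq_finite_toFinset_sum _ hRf] at hq
  have hlow : (P - 1) ^ 2 * (D'.card : ℤ) ≤ ∑ u ∈ hRf.toFinset, (∑ x ∈ Y, a x * F x u) ^ 2 := by
    calc (P - 1) ^ 2 * (D'.card : ℤ) = ∑ u ∈ D', (P - 1) ^ 2 := by
          rw [Finset.sum_const, nsmul_eq_mul]; ring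
      _ ≤ ∑ u ∈ D', (∑ x ∈ Y, a x * F x u) ^ 2 := by
          refine Finset.sum_le_sum fun u hu => ?_
          rw [hD', Finset.mem_filter] at hu
          exact BCN_sq hP1 hs1 hs2 (hdvd u hu.2)
      _ ≤ _ := Finset.sum_le_sum_of_subset_of_nonneg hsub fun u _ _ => sq_nonneg _
  have ha2 : ∑ x ∈ Y, a x ^ 2 = P - 1 := by
    have h1 : ∀ x ∈ Y, a x ^ 2 = if x ∈ Y' then (1 : ℤ) else 0 := by
      intro x hx
      rw [ha]
      simp only
      split_ifs
      · exact (BCN_sign (hF x hx).1).2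
      · norm_num
    rw [Finset.sum_congr rfl h1, hsum]
    rw [Finset.sum_const, nsmul_eq_mul, mul_one, hYcz]
  rw [ha2] at hq
  have hcard : p * Nat.card D ≤ p * D'.card + S.card * Nat.card D := by
    have h1 : (Finset.univ : Finset D) ⊆ D' ∪ S.biUnion (fun H => Finset.univ.filter (fun u => u ∈ H)) := by
      intro u _
      by_cases h : ∀ H ∈ S, u ∉ H
      · exact Finset.mem_union_left _ (by rw [hD', Finset.mem_filter]; exact ⟨Finset.mem_univ _, h⟩)
      · push_neg at h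
        obtain ⟨H, hH, hu⟩ := h
        refine Finset.mem_union_right _ ?_
        rw [Finset.mem_biUnion]
        exact ⟨H, hH, by rw [Finset.mem_filter]; exact ⟨Finset.mem_univ _, hu⟩⟩
    have h2 := Finset.card_le_card h1
    have h3 : (D' ∪ S.biUnion (fun H => Finset.univ.filter (fun u => u ∈ H))).card ≤
        D'.card + ∑ H ∈ S, (Finset.univ.filter (fun u => u ∈ H)).card :=
      (Finset.card_union_le _ _).trans (Nat.add_le_add_left Finset.card_biUnion_le _)
    have h4 : p * ∑ H ∈ S, (Finset.univ.filter (fun u => u ∈ H)).card = S.card * Nat.card D := by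
      rw [Finset.mul_sum, ← smul_eq_mul (S.card), ← Finset.sum_const]
      refine Finset.sum_congr rfl fun H hH => ?_
      have h5 := H.card_mul_index
      rw [hS H hH] at h5
      have h6 : (Finset.univ.filter (fun u => u ∈ H)).card = Nat.card H := by
        rw [Nat.card_eq_fintype_card, Fintype.card_subtype]
      rw [h6, mul_comm]; exact h5
    rw [Finset.card_univ, ← Nat.card_eq_fintype_card] at h2
    calc p * Nat.card D ≤ p * (D'.card + ∑ H ∈ S, (Finset.univ.filter (fun u => u ∈ H)).card) :=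
          Nat.mul_le_mul_left _ (h2.trans h3)
      _ = _ := by rw [mul_add, h4]
  have hDpos : (0 : ℤ) < (Nat.card D : ℤ) := by exact_mod_cast Nat.card_pos
  have hcz : P * (Nat.card D : ℤ) ≤ P * D'.card + S.card * (Nat.card D : ℤ) := by rw [hP]; exact_mod_cast hcard
  have hnz : (n : ℤ) + S.card + 1 < P := by rw [hP]; exact_mod_cast hn
  have hP2 : 1 < P := by rw [hP]; exact_mod_cast hp.one_lt
  have h7 : (P - 1) ^ 2 * (D'.card : ℤ) ≤ (n : ℤ) * Nat.card D * (P - 1) := hlow.trans hq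
  have h8 : (P - 1) * (D'.card : ℤ) ≤ (n : ℤ) * Nat.card D := by
    have h9 : (P - 1) * ((P - 1) * (D'.card : ℤ)) ≤ (P - 1) * ((n : ℤ) * Nat.card D) := by
      have e1 : (P - 1) * ((P - 1) * (D'.card : ℤ)) = (P - 1) ^ 2 * (D'.card : ℤ) := by ring
      have e2 : (P - 1) * ((n : ℤ) * Nat.card D) = (n : ℤ) * Nat.card D * (P - 1) := by ring
      rw [e1, e2]; exact h7
    exact le_of_mul_le_mul_left h9 (by linarith)
  have h10 : (P - 1) * ((P - S.card) * (Nat.card D : ℤ)) ≤ P * ((n : ℤ) * Nat.card D) := by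
    have e1 : (P - S.card) * (Nat.card D : ℤ) ≤ P * D'.card := by linarith
    calc (P - 1) * ((P - S.card) * (Nat.card D : ℤ)) ≤ (P - 1) * (P * D'.card) :=
          mul_le_mul_of_nonneg_left e1 (by linarith)
      _ = P * ((P - 1) * (D'.card : ℤ)) := by ring
      _ ≤ P * ((n : ℤ) * Nat.card D) := mul_le_mul_of_nonneg_left h8 (by linarith)
  have h11 : (P - 1) * (P - S.card) ≤ P * n := by
    have e1 : ((P - 1) * (P - S.card)) * (Nat.card D : ℤ) ≤ (P * n) * (Nat.card D : ℤ) := by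
      calc ((P - 1) * (P - S.card)) * (Nat.card D : ℤ) = (P - 1) * ((P - S.card) * (Nat.card D : ℤ)) := by ring
        _ ≤ _ := h10
        _ = _ := by ring
    exact le_of_mul_le_mul_right e1 hDpos
  have h12 : P * (n : ℤ) ≤ P * (P - S.card - 2) := mul_le_mul_of_nonneg_left (by linarith) (by linarith)
  have h13 : (0 : ℤ) ≤ S.card := Int.natCast_nonneg _
  nlinarith

end Pool.Agent.FI4B
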